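import Pool.Agent.TCE.Data

/-!
Soundness of the coset enumeration certificate: in every group with three elements `a b c` whose
relators `(i w^-1 j w)^4` are trivial (`i j` among `a b c`, `w` any element) every element of the
subgroup generated by `a b c` is one of 8192 explicit products, and its eighth power is 1.
-/

namespace Pool.Agent.TCE

/-! ### The programs -/

/-- parent of the vertex `k` -/
def par (k : ℕ) : ℕ := (parT >>> (12 * k)) % 1024

/-- letter of the tree edge at the vertex `k` -/
def px (k : ℕ) : ℕ := (parT >>> (12 * k)) / 1024 % 4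

/-- entry of the table -/
def tb (e : ℕ) : ℕ := (tabT >>> (13 * e)) % 8192

/-- product of two labels -/
def mulD (h g : ℕ) : ℕ := (mulT >>> (3 * (8 * h + g))) % 8

/-- one letter -/
def step (s x : ℕ) : ℕ :=
  mulD (s / 1024) (tb (3 * (s % 1024) + x) / 1024) * 1024 + tb (3 * (s % 1024) + x) % 1024

/-- a word, along known edges -/
def fwd (K : ℕ) : ℕ → List ℕ → Option ℕ
  | s, [] => some s
  | s, x :: l => if x < 3 ∧ K.testBit (3 * (s % 1024) + x) = true then fwd K (step s x) l else none

/-- base of a relator -/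
def relOf (i j : ℕ) (w : List ℕ) : List ℕ := i :: (w.reverse ++ j :: w)

/-- base of the relator number `r` -/
def relAt (r : ℕ) : List ℕ :=
  match relC[r]? with
  | some (i, j, w) => relOf i j w
  | none => []

/-- the relator number `r` -/
def rel4 (r : ℕ) : List ℕ := relAt r ++ (relAt r ++ (relAt r ++ relAt r))

/-- one deduction -/
def dstep (K d : ℕ) : Option ℕ :=
  match fwd K (d % 1024) ((rel4 (d / 1024 % 32)).take (d / 32768)),
    fwd K (d % 1024) ((rel4 (d / 1024 % 32)).drop (d / 32768 + 1)).reverse,
    (rel4 (d / 1024 % 32)).drop (d / 32768) with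
  | some sf, some sb, x :: _ =>
    if x < 3 ∧ tb (3 * (sf % 1024) + x) % 1024 = sb % 1024 ∧
        mulD (sf / 1024) (tb (3 * (sf % 1024) + x) / 1024) = sb / 1024 ∧
        tb (3 * (sb % 1024) + x) % 1024 = sf % 1024 ∧
        mulD (tb (3 * (sf % 1024) + x) / 1024) (tb (3 * (sb % 1024) + x) / 1024) = 0 ∧
        sf / 1024 < 8 ∧ sb / 1024 < 8 then
      some ((K ||| 2 ^ (3 * (sf % 1024) + x)) ||| 2 ^ (3 * (sb % 1024) + x))
    else none
  | _, _, _ => none

/-- all deductions -/
def run : ℕ → List ℕ → Option ℕ
  | K, [] => some K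
  | K, d :: l =>
    match dstep K d with
    | some K' => run K' l
    | none => none

/-- letters of a label -/
def dword (h : ℕ) : List ℕ :=
  match h with
  | 0 => []
  | 1 => [1]
  | 2 => [2]
  | 3 => [1, 2]
  | 4 => [2, 1]
  | 5 => [1, 2, 1]
  | 6 => [2, 1, 2]
  | _ => [1, 2, 1, 2]

/-- a word of `b`, `c` applied to a label -/
def lab (h : ℕ) : List ℕ → ℕ
  | [] => h
  | x :: l => lab (mulD h x) l

/-- a word -/
def act (s : ℕ) : List ℕ → ℕ
  | [] => s
  | x :: l => act (step s x) l

/-- multiplication by the representative of the vertex `i` -/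
def mulPhi : ℕ → ℕ → ℕ → Option ℕ
  | 0, s, i => if i = 0 then some s else none
  | n + 1, s, i =>
    if i = 0 then some s
    else
      match mulPhi n s (par i) with
      | some t => some (step t (px i))
      | none => none

/-- product of two elements -/
def mulV (s t : ℕ) : Option ℕ := mulPhi 20 (act s (dword (t / 1024))) (t % 1024)

/-- entry of the table of squares -/
def sqv (s : ℕ) : ℕ := (sqT >>> (13 * s)) % 8192

/-- check of a square -/
def sqOK (s : ℕ) : Bool := decide (mulV s s = some (sqv s)) && decide (sqv (sqv (sqv s)) = 0)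

/-- check of an initial edge -/
def initOK (e : ℕ) : Bool :=
  !(kn0.testBit e) ||
  ((decide (tb e / 1024 = 0) && decide (tb e % 1024 ≠ 0) && decide (par (tb e % 1024) = e / 3) &&
      decide (px (tb e % 1024) = e % 3)) ||
   (decide (tb e / 1024 = 0) && decide (e / 3 ≠ 0) && decide (par (e / 3) = tb e % 1024) &&
      decide (px (e / 3) = e % 3)) ||
   (decide (e / 3 = 0) && decide (tb e % 1024 = 0) && decide (e % 3 = 1) &&
      decide (tb e / 1024 = 1)) ||
   (decide (e / 3 = 0) && decide (tb e % 1024 = 0) && decide (e % 3 = 2) &&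
      decide (tb e / 1024 = 2)))

/-- check of a tree edge -/
def parOK (k : ℕ) : Bool := decide (k = 0) || (decide (par k < k) && decide (px k < 3))

/-- check of a product of labels -/
def mulOK (k : ℕ) : Bool := decide (lab (k / 8) (dword (k % 8)) = mulD (k / 8) (k % 8))

/-- all numbers below `n` -/
noncomputable def allB (p : ℕ → Bool) (n : ℕ) : Bool := Nat.rec true (fun k ih => p k && ih) n

theorem allB_spec (p : ℕ → Bool) : ∀ n : ℕ, allB p n = true → ∀ k < n, p k = true := by
  intro n
  induction n with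
  | zero => intro _ k hk; exact absurd hk (Nat.not_lt_zero k)
  | succ n ih =>
    intro h k hk
    have h' : (p n && allB p n) = true := h
    rw [Bool.and_eq_true] at h'
    rcases Nat.lt_succ_iff_lt_or_eq.mp hk with h1 | h1
    · exact ih h'.2 k h1
    · rw [h1]; exact h'.1

/-! ### Soundness -/

section Group

variable {G : Type*} [Group G] (a b c : G)

/-- the generators -/
def gen (x : ℕ) : G := if x = 0 then a else if x = 1 then b else c

/-- value of a word -/
def wd : List ℕ → G
  | [] => 1
  | x :: l => gen a b c x * wd l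

/-- representative of a vertex -/
def phi (k : ℕ) : G :=
  if k = 0 then 1
  else if _h : par k < k then phi (par k) * gen a b c (px k) else 1
termination_by k

/-- value of a label -/
def eta (h : ℕ) : G := wd a b c (dword h)

/-- value of a state -/
def val (s : ℕ) : G := eta a b c (s / 1024) * phi a b c (s % 1024)

/-- the edge `x` at the vertex `j` is correct -/
def EF (j x : ℕ) : Prop :=
  phi a b c j * gen a b c x =
    eta a b c (tb (3 * j + x) / 1024) * phi a b c (tb (3 * j + x) % 1024)

/-- all known edges are correct -/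
def Good (K : ℕ) : Prop := ∀ j x : ℕ, x < 3 → K.testBit (3 * j + x) = true → EF a b c j x

theorem wd_append (l l' : List ℕ) : wd a b c (l ++ l') = wd a b c l * wd a b c l' := by
  induction l with
  | nil => simp [wd]
  | cons x l ih => simp [wd, ih, mul_assoc]

/-- the hypotheses on the three elements -/
structure Rels : Prop where
  sq : ∀ x : ℕ, gen a b c x * gen a b c x = 1
  four : ∀ (i j : ℕ) (g : G), (gen a b c i * (g⁻¹ * gen a b c j * g)) ^ 4 = 1

variable {a b c}

theorem gen_inv (hR : Rels a b c) (x : ℕ) : (gen a b c x)⁻¹ = gen a b c x :=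
  inv_eq_of_mul_eq_one_right (hR.sq x)

theorem wd_reverse (hR : Rels a b c) (l : List ℕ) :
    wd a b c l.reverse = (wd a b c l)⁻¹ := by
  induction l with
  | nil => simp [wd]
  | cons x l ih =>
    rw [List.reverse_cons, wd_append, ih]
    simp [wd, gen_inv hR]

theorem wd_relOf (hR : Rels a b c) (i j : ℕ) (w : List ℕ) :
    wd a b c (relOf i j w) =
      gen a b c i * ((wd a b c w)⁻¹ * gen a b c j * wd a b c w) := by
  simp [relOf, wd, wd_append, wd_reverse hR, mul_assoc]

theorem wd_rel4 (hR : Rels a b c) (r : ℕ) : wd a b c (rel4 r) = 1 := by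
  have h : (wd a b c (relAt r)) ^ 4 = 1 := by
    unfold relAt
    split
    · rename_i i j w _
      rw [wd_relOf hR]
      exact hR.four i j _
    · simp [wd]
  rw [rel4, wd_append, wd_append, wd_append, ← h]
  simp [pow_succ, mul_assoc]

theorem mulD_lt (h g : ℕ) : mulD h g < 8 := Nat.mod_lt _ (by norm_num)

theorem tb_lt (e : ℕ) : tb e < 8192 := Nat.mod_lt _ (by norm_num)

theorem tb_div (e : ℕ) : tb e / 1024 < 8 := by
  have := tb_lt e
  omega

/-- right multiplication of a label by `b` and by `c` -/
theorem eta_gen (hR : Rels a b c) (h : ℕ) (hh : h < 8) (x : ℕ) (hx : x = 1 ∨ x = 2)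
    (hm : ∀ k < 8, mulD k 1 = ([1, 0, 4, 5, 2, 3, 7, 6] : List ℕ).getD k 0 ∧
      mulD k 2 = ([2, 3, 0, 1, 6, 7, 4, 5] : List ℕ).getD k 0) :
    eta a b c h * gen a b c x = eta a b c (mulD h x) := by
  have hb : b * b = 1 := by simpa [gen] using hR.sq 1
  have hc : c * c = 1 := by simpa [gen] using hR.sq 2
  have hbi : b⁻¹ = b := inv_eq_of_mul_eq_one_right hb
  have hci : c⁻¹ = c := inv_eq_of_mul_eq_one_right hc
  have h4 : (b * c) ^ 4 = 1 := by
    have := hR.four 1 2 1
    simpa [gen] using this
  have hbc : c * b * (c * b) = b * c * (b * c) := by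
    have h5 : (b * c * (b * c)) * (b * c * (b * c)) = 1 := by
      rw [← h4]; simp [pow_succ, mul_assoc]
    have h6 : (b * c * (b * c))⁻¹ = b * c * (b * c) := inv_eq_of_mul_eq_one_right h5
    rw [← h6]
    simp [mul_inv_rev, hbi, hci, mul_assoc]
  have e1 : ∀ y : G, b * (b * y) = y := fun y => by rw [← mul_assoc, hb, one_mul]
  have e2 : ∀ y : G, c * (c * y) = y := fun y => by rw [← mul_assoc, hc, one_mul]
  have hbc' : c * (b * (c * b)) = b * (c * (b * c)) := by
    simpa [mul_assoc] using hbc
  have hm1 := hm h hh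
  have hg1 : gen a b c 1 = b := rfl
  have hg2 : gen a b c 2 = c := rfl
  rcases hx with hx | hx
  · subst hx
    rw [hm1.1, hg1]
    interval_cases h <;> simp [eta, dword, wd, hg1, hg2, mul_assoc, hb]
    · exact hbc'
    · rw [hbc', e1]
  · subst hx
    rw [hm1.2, hg2]
    interval_cases h <;> simp [eta, dword, wd, hg1, hg2, mul_assoc, hc]

/-- the facts about the tables that are used -/
structure Tab : Prop where
  m1 : ∀ k < 8, mulD k 1 = ([1, 0, 4, 5, 2, 3, 7, 6] : List ℕ).getD k 0 ∧
      mulD k 2 = ([2, 3, 0, 1, 6, 7, 4, 5] : List ℕ).getD k 0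
  m2 : ∀ k < 64, mulOK k = true
  pr : ∀ k < 1024, parOK k = true

theorem dword_mem (h x : ℕ) (hx : x ∈ dword h) : x = 1 ∨ x = 2 := by
  unfold dword at hx
  split at hx <;> simp at hx <;> omega

theorem lab_lt (h : ℕ) (hh : h < 8) (l : List ℕ) : lab h l < 8 := by
  induction l generalizing h with
  | nil => exact hh
  | cons x l ih => exact ih _ (mulD_lt _ _)

theorem eta_wd (hT : Tab) (hR : Rels a b c) (l : List ℕ) (hl : ∀ x ∈ l, x = 1 ∨ x = 2) :
    ∀ h < 8, eta a b c h * wd a b c l = eta a b c (lab h l) := by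
  induction l with
  | nil => intro h _; simp [wd, lab]
  | cons x l ih =>
    intro h hh
    rw [wd, ← mul_assoc, eta_gen hR h hh x (hl x (by simp)) hT.m1, lab]
    exact ih (fun y hy => hl y (by simp [hy])) _ (mulD_lt _ _)

theorem eta_mul (hT : Tab) (hR : Rels a b c) (h g : ℕ) (hh : h < 8) (hg : g < 8) :
    eta a b c h * eta a b c g = eta a b c (mulD h g) := by
  have h1 : eta a b c h * wd a b c (dword g) = eta a b c (lab h (dword g)) :=
    eta_wd hT hR _ (dword_mem g) h hh
  have h2 := hT.m2 (8 * h + g) (by omega)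
  have h3 : (8 * h + g) / 8 = h := by omega
  have h4 : (8 * h + g) % 8 = g := by omega
  unfold mulOK at h2
  rw [decide_eq_true_eq, h3, h4] at h2
  rw [← h2]
  exact h1

theorem step_div (s x : ℕ) :
    step s x / 1024 = mulD (s / 1024) (tb (3 * (s % 1024) + x) / 1024) := by
  unfold step
  omega

theorem step_mod (s x : ℕ) : step s x % 1024 = tb (3 * (s % 1024) + x) % 1024 := by
  unfold step
  omega

theorem step_lt (s x : ℕ) : step s x < 8192 := by
  have h1 := mulD_lt (s / 1024) (tb (3 * (s % 1024) + x) / 1024)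
  unfold step
  omega

theorem step_val (hT : Tab) (hR : Rels a b c) (s x : ℕ) (hs : s < 8192)
    (hE : EF a b c (s % 1024) x) : val a b c s * gen a b c x = val a b c (step s x) := by
  unfold val
  rw [step_div, step_mod, mul_assoc, hE, ← mul_assoc, eta_mul hT hR _ _ (by omega) (tb_div _)]

theorem fwd_val (hT : Tab) (hR : Rels a b c) (K : ℕ) (hK : Good a b c K) (l : List ℕ) :
    ∀ s s' : ℕ, s < 8192 → fwd K s l = some s' →
      val a b c s * wd a b c l = val a b c s' ∧ s' < 8192 := by
  induction l with
  | nil =>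
    intro s s' hs h
    rw [fwd] at h
    obtain rfl := Option.some.inj h
    exact ⟨by simp [wd], hs⟩
  | cons x l ih =>
    intro s s' hs h
    rw [fwd] at h
    split_ifs at h with h1
    have h2 := ih _ _ (step_lt s x) h
    refine ⟨?_, h2.2⟩
    rw [wd, ← mul_assoc, step_val hT hR s x hs (hK _ _ h1.1 h1.2)]
    exact h2.1

theorem val_small (s : ℕ) (hs : s < 1024) : val a b c s = phi a b c s := by
  have h1 : s / 1024 = 0 := by omega
  have h2 : s % 1024 = s := by omega
  simp [val, h1, h2, eta, dword, wd]

theorem eta_zero : eta a b c 0 = 1 := by simp [eta, dword, wd]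

theorem dstep_good (hT : Tab) (hR : Rels a b c) (K d K' : ℕ) (hK : Good a b c K)
    (h : dstep K d = some K') : Good a b c K' := by
  unfold dstep at h
  split at h
  · rename_i sf sb x tl h1 h2 h3
    split_ifs at h with h4
    obtain ⟨hx, h5, h6, h7, h8, h9, h10⟩ := h4
    obtain rfl := Option.some.inj h
    have hc : d % 1024 < 8192 := by omega
    have hc' : d % 1024 < 1024 := by omega
    obtain ⟨v1, l1⟩ := fwd_val hT hR K hK _ _ _ hc h1
    obtain ⟨v2, l2⟩ := fwd_val hT hR K hK _ _ _ hc h2
    have hrel := wd_rel4 hR (d / 1024 % 32)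
    have hsplit : rel4 (d / 1024 % 32) =
        (rel4 (d / 1024 % 32)).take (d / 32768) ++
          x :: (rel4 (d / 1024 % 32)).drop (d / 32768 + 1) := by
      have e1 : (rel4 (d / 1024 % 32)).drop (d / 32768 + 1) = tl := by
        rw [← List.drop_drop, h3]
        simp
      rw [e1, ← h3, List.take_append_drop]
    rw [hsplit, wd_append] at hrel
    rw [wd_reverse hR] at v2
    have hkey : val a b c sf * gen a b c x = val a b c sb := by
      rw [← v1, ← v2, mul_assoc]
      congr 1
      rw [wd] at hrel
      rw [eq_inv_iff_mul_eq_one]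
      simpa [mul_assoc] using hrel
    have hE1 : EF a b c (sf % 1024) x := by
      unfold EF
      have e2 : eta a b c (sf / 1024) *
          (eta a b c (tb (3 * (sf % 1024) + x) / 1024) *
            phi a b c (tb (3 * (sf % 1024) + x) % 1024)) =
          eta a b c (sf / 1024) * (phi a b c (sf % 1024) * gen a b c x) := by
        rw [← mul_assoc, ← mul_assoc, eta_mul hT hR _ _ h9 (tb_div _), h6, h5]
        exact hkey.symm
      exact (mul_left_cancel e2).symm
    have hE2 : EF a b c (sb % 1024) x := by
      unfold EF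
      have e3 : eta a b c (tb (3 * (sf % 1024) + x) / 1024) *
          eta a b c (tb (3 * (sb % 1024) + x) / 1024) = 1 := by
        rw [eta_mul hT hR _ _ (tb_div _) (tb_div _), h8, eta_zero]
      have e4 : phi a b c (sf % 1024) * gen a b c x =
          eta a b c (tb (3 * (sf % 1024) + x) / 1024) * phi a b c (sb % 1024) := by
        rw [← h5]; exact hE1
      have e5 : phi a b c (sb % 1024) * gen a b c x =
          (eta a b c (tb (3 * (sf % 1024) + x) / 1024))⁻¹ * phi a b c (sf % 1024) := by
        have e6 : phi a b c (sb % 1024) =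
            (eta a b c (tb (3 * (sf % 1024) + x) / 1024))⁻¹ *
              (phi a b c (sf % 1024) * gen a b c x) := by
          rw [e4]; group
        rw [e6, mul_assoc, mul_assoc, hR.sq x, mul_one]
      rw [e5, h7, ← eq_inv_of_mul_eq_one_right e3]
    intro j y hy hb
    rw [Nat.testBit_lor, Nat.testBit_lor, Nat.testBit_two_pow, Nat.testBit_two_pow] at hb
    simp only [Bool.or_eq_true, decide_eq_true_eq] at hb
    rcases hb with (hb | hb) | hb
    · exact hK j y hy hb
    · have e1 : j = sf % 1024 := by omega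
      have e2 : y = x := by omega
      rw [e1, e2]; exact hE1
    · have e1 : j = sb % 1024 := by omega
      have e2 : y = x := by omega
      rw [e1, e2]; exact hE2
  · exact absurd h (by simp)

theorem run_good (hT : Tab) (hR : Rels a b c) (l : List ℕ) :
    ∀ K K' : ℕ, Good a b c K → run K l = some K' → Good a b c K' := by
  induction l with
  | nil =>
    intro K K' hK h
    rw [run] at h
    obtain rfl := Option.some.inj h
    exact hK
  | cons d l ih =>
    intro K K' hK h
    rw [run] at h
    split at h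
    · rename_i K1 h1
      exact ih K1 K' (dstep_good hT hR K d K1 hK h1) h
    · exact absurd h (by simp)

theorem phi_zero : phi a b c 0 = 1 := by
  rw [phi]; simp

theorem phi_pos (hT : Tab) (k : ℕ) (h0 : k ≠ 0) (hk : k < 1024) :
    phi a b c k = phi a b c (par k) * gen a b c (px k) ∧ par k < k ∧ px k < 3 := by
  have h1 := hT.pr k hk
  unfold parOK at h1
  simp only [Bool.or_eq_true, Bool.and_eq_true, decide_eq_true_eq] at h1
  have h2 : par k < k ∧ px k < 3 := by
    rcases h1 with h1 | h1
    · exact absurd h1 h0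
    · exact h1
  refine ⟨?_, h2⟩
  conv_lhs => rw [phi]
  simp [h0, h2.1]

theorem init_good (hT : Tab) (hR : Rels a b c) (hI : ∀ e < 3072, initOK e = true)
    (hB : kn0 < 2 ^ 3072) : Good a b c kn0 := by
  intro j x hx hb
  have he : 3 * j + x < 3072 := by
    by_contra hcon
    have h1 : kn0 < 2 ^ (3 * j + x) :=
      lt_of_lt_of_le hB (Nat.pow_le_pow_right (by norm_num) (not_lt.mp hcon))
    rw [Nat.testBit_lt_two_pow h1] at hb
    exact absurd hb (by simp)
  have h1 := hI _ he
  have hj : (3 * j + x) / 3 = j := by omega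
  have hm : (3 * j + x) % 3 = x := by omega
  have htl := tb_lt (3 * j + x)
  unfold initOK at h1
  rw [hj, hm, hb] at h1
  simp only [Bool.not_true, Bool.false_or, Bool.or_eq_true, Bool.and_eq_true,
    decide_eq_true_eq] at h1
  unfold EF
  rcases h1 with ((h1 | h1) | h1) | h1
  · obtain ⟨⟨⟨h2, h3⟩, h4⟩, h5⟩ := h1
    have h6 := (phi_pos (a := a) (b := b) (c := c) hT (tb (3 * j + x) % 1024) h3 (by omega)).1
    rw [h4, h5] at h6
    rw [h2, eta_zero, one_mul, h6]
  · obtain ⟨⟨⟨h2, h3⟩, h4⟩, h5⟩ := h1
    have h6 := (phi_pos (a := a) (b := b) (c := c) hT j h3 (by omega)).1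
    rw [h4, h5] at h6
    rw [h2, eta_zero, one_mul, h6, mul_assoc, hR.sq x, mul_one]
  · obtain ⟨⟨⟨h2, h3⟩, h4⟩, h5⟩ := h1
    subst h2
    subst h4
    rw [h3, h5, phi_zero]
    simp [eta, dword, wd, gen]
  · obtain ⟨⟨⟨h2, h3⟩, h4⟩, h5⟩ := h1
    subst h2
    subst h4
    rw [h3, h5, phi_zero]
    simp [eta, dword, wd, gen]

/-- all edges are correct -/
def AllE (a b c : G) : Prop := ∀ j x : ℕ, j < 1024 → x < 3 → EF a b c j x

theorem all_edges (hT : Tab) (hR : Rels a b c) (hI : ∀ e < 3072, initOK e = true)
    (hB : kn0 < 2 ^ 3072) (hrun : run kn0 dedL = some (2 ^ 3072 - 1)) : AllE a b c := by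
  intro j x hj hx
  refine run_good hT hR dedL _ _ (init_good hT hR hI hB) hrun j x hx ?_
  rw [Nat.testBit_two_pow_sub_one, decide_eq_true_eq]
  omega

/-- the values -/
def IsVal (a b c : G) (g : G) : Prop := ∃ s < 8192, g = val a b c s

theorem wd_isVal (hT : Tab) (hR : Rels a b c) (hA : AllE a b c) (l : List ℕ)
    (hl : ∀ x ∈ l, x < 3) : ∀ s < 8192, val a b c s * wd a b c l = val a b c (act s l) ∧
      act s l < 8192 := by
  induction l with
  | nil => intro s hs; exact ⟨by simp [wd, act], hs⟩
  | cons x l ih =>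
    intro s hs
    have h1 := ih (fun y hy => hl y (by simp [hy])) (step s x) (step_lt s x)
    refine ⟨?_, h1.2⟩
    rw [wd, ← mul_assoc, step_val hT hR s x hs (hA _ _ (by omega) (hl x (by simp))), act]
    exact h1.1

theorem mulPhi_val (hT : Tab) (hR : Rels a b c) (hA : AllE a b c) (n : ℕ) :
    ∀ s i t : ℕ, s < 8192 → i < 1024 → mulPhi n s i = some t →
      val a b c s * phi a b c i = val a b c t ∧ t < 8192 := by
  induction n with
  | zero =>
    intro s i t hs hi h
    rw [mulPhi] at h
    split_ifs at h with h0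
    obtain rfl := Option.some.inj h
    exact ⟨by rw [h0, phi_zero, mul_one], hs⟩
  | succ n ih =>
    intro s i t hs hi h
    rw [mulPhi] at h
    split_ifs at h with h0
    · obtain rfl := Option.some.inj h
      exact ⟨by rw [h0, phi_zero, mul_one], hs⟩
    · split at h
      · rename_i t1 h1
        obtain rfl := Option.some.inj h
        obtain ⟨h2, h3, h4⟩ := phi_pos (a := a) (b := b) (c := c) hT i h0 hi
        have h5 := ih s (par i) t1 hs (by omega) h1
        refine ⟨?_, step_lt _ _⟩
        rw [h2, ← mul_assoc, h5.1, step_val hT hR t1 _ h5.2 (hA _ _ (by omega) h4)]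
      · exact absurd h (by simp)

theorem mulV_val (hT : Tab) (hR : Rels a b c) (hA : AllE a b c) (s t u : ℕ) (hs : s < 8192)
    (h : mulV s t = some u) : val a b c s * val a b c t = val a b c u ∧ u < 8192 := by
  unfold mulV at h
  have h1 := wd_isVal hT hR hA (dword (t / 1024))
    (fun x hx => by rcases dword_mem _ _ hx with h | h <;> omega) s hs
  have h2 := mulPhi_val hT hR hA 20 _ (t % 1024) u h1.2 (by omega) h
  refine ⟨?_, h2.2⟩
  rw [← h2.1, ← h1.1, val, val, eta, eta]
  simp only [mul_assoc]

theorem pow8 (hT : Tab) (hR : Rels a b c) (hA : AllE a b c) (hS : ∀ s < 8192, sqOK s = true)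
    (s : ℕ) (hs : s < 8192) : (val a b c s) ^ 8 = 1 := by
  have key : ∀ s < 8192, val a b c s * val a b c s = val a b c (sqv s) := by
    intro s hs
    have h1 := hS s hs
    unfold sqOK at h1
    simp only [Bool.and_eq_true, decide_eq_true_eq] at h1
    exact (mulV_val hT hR hA s s _ hs h1.1).1
  have hlt : ∀ s, sqv s < 8192 := fun s => Nat.mod_lt _ (by norm_num)
  have h0 := hS s hs
  unfold sqOK at h0
  simp only [Bool.and_eq_true, decide_eq_true_eq] at h0
  have h3 : (val a b c s) ^ 8 = val a b c (sqv (sqv (sqv s))) := by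
    rw [← key _ (hlt _), ← key _ (hlt _), ← key _ hs]
    simp [pow_succ, mul_assoc]
  rw [h3, h0.2]
  simp [val, eta, dword, wd, phi_zero]

end Group

end Pool.Agent.TCE
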