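import Pool.Agent.TCE.Basic

/-!
The finite checks of the certificate of the coset enumeration.
-/

namespace Pool.Agent.TCE

theorem chk_m1 : ∀ k < 8, mulD k 1 = ([1, 0, 4, 5, 2, 3, 7, 6] : List ℕ).getD k 0 ∧
    mulD k 2 = ([2, 3, 0, 1, 6, 7, 4, 5] : List ℕ).getD k 0 := by decide +kernel

theorem chk_m2 : allB mulOK 64 = true := by decide +kernel

theorem chk_pr : allB parOK 1024 = true := by decide +kernel

theorem chk_init : allB initOK 3072 = true := by decide +kernel

theorem chk_bd : kn0 < 2 ^ 3072 := by decide +kernel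

theorem chk_run : run kn0 dedL = some (2 ^ 3072 - 1) := by decide +kernel

theorem chk_sq : allB sqOK 8192 = true := by decide +kernel

theorem tab_ok : Tab := ⟨chk_m1, allB_spec _ _ chk_m2, allB_spec _ _ chk_pr⟩

theorem all_edges_ok {G : Type*} [Group G] {a b c : G} (hR : Rels a b c) : AllE a b c :=
  all_edges tab_ok hR (allB_spec _ _ chk_init) chk_bd chk_run

theorem sq_ok : ∀ s < 8192, sqOK s = true := allB_spec _ _ chk_sq

end Pool.Agent.TCE
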