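import Pool.Agent.TCE.Check

/-!
Three conjugates of a left 3-Engel involution: the subgroup that they generate is a finite 2-group
of order dividing `2 ^ 13`.
-/

namespace Pool.Agent.TCE

/-- the commutator `g⁻¹ h⁻¹ g h` -/
def comm {G : Type*} [Group G] (g h : G) : G := g⁻¹ * h⁻¹ * g * h

/-- the left-normed commutator `[g, x, ..., x]` with `n` letters `x` -/
def eng {G : Type*} [Group G] (g x : G) : ℕ → G
  | 0 => g
  | n + 1 => comm (eng g x n) x

/-- `x` is a left `n`-Engel element -/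
def IsLeftEngel {G : Type*} [Group G] (n : ℕ) (x : G) : Prop := ∀ g : G, eng g x n = 1

section

variable {G : Type*} [Group G]

/-- for an involution `x` the third commutator is the fourth power of `x ^ g x` -/
theorem eng_three (g x : G) (hx : x * x = 1) :
    eng g x 3 = (g⁻¹ * x * g * x) ^ 4 := by
  have hi : x⁻¹ = x := inv_eq_of_mul_eq_one_right hx
  have h1 : eng g x 1 = g⁻¹ * x * g * x := by
    simp [eng, comm, hi]
  have hxx : ∀ y : G, x * (x * y) = y := fun y => by rw [← mul_assoc, hx, one_mul]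
  have key : ∀ t : G, x * t * x = t⁻¹ → comm t x = (t⁻¹) ^ 2 := by
    intro t ht
    have h2 : comm t x = t⁻¹ * (x * t * x) := by simp [comm, hi, mul_assoc]
    rw [h2, ht, pow_two]
  have hinv : ∀ t : G, x * t * x = t⁻¹ → x * (t⁻¹) ^ 2 * x = ((t⁻¹) ^ 2)⁻¹ := by
    intro t ht
    have h3 : x * t⁻¹ * x = t := by
      rw [← ht]; simp only [mul_assoc, hxx, hx, mul_one]
    have h4 : x * (t⁻¹) ^ 2 * x = (x * t⁻¹ * x) * (x * t⁻¹ * x) := by
      rw [pow_two]; simp only [mul_assoc, hxx]
    rw [h4, h3]; simp [pow_two]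
  have h0 : x * (g⁻¹ * x * g * x) * x = (g⁻¹ * x * g * x)⁻¹ := by
    simp [hi, mul_assoc, hx]
  have h2 : eng g x 2 = ((g⁻¹ * x * g * x)⁻¹) ^ 2 := by
    rw [show eng g x 2 = comm (eng g x 1) x from rfl, h1, key _ h0]
  rw [show eng g x 3 = comm (eng g x 2) x from rfl, h2, key _ (hinv _ h0)]
  rw [← inv_pow, inv_inv, ← pow_mul]

theorem four_of_conj {x d e : G} (hE : IsLeftEngel 3 x) (hx : x * x = 1)
    (hd : IsConj x d) (he : IsConj x e) : (d * e) ^ 4 = 1 := by
  obtain ⟨u, hu⟩ := isConj_iff.mp hd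
  obtain ⟨v, hv⟩ := isConj_iff.mp he
  have h1 := hE (u⁻¹ * v)
  rw [eng_three _ _ hx] at h1
  have h2 : d * e = u * (x * ((u⁻¹ * v) * x * (u⁻¹ * v)⁻¹)) * u⁻¹ := by
    rw [← hu, ← hv]; group
  have h3 : x * ((u⁻¹ * v) * x * (u⁻¹ * v)⁻¹) =
      (u⁻¹ * v) * ((u⁻¹ * v)⁻¹ * x * (u⁻¹ * v) * x) * (u⁻¹ * v)⁻¹ := by
    group
  rw [h2, h3, conj_pow, conj_pow, h1]
  simp

theorem sq_of_conj {x d : G} (hx : x * x = 1) (hd : IsConj x d) : d * d = 1 := by
  obtain ⟨u, hu⟩ := isConj_iff.mp hd
  rw [← hu]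
  have : u * x * u⁻¹ * (u * x * u⁻¹) = u * (x * x) * u⁻¹ := by group
  rw [this, hx]; simp

theorem rels_of_engel {x a b c : G} (hE : IsLeftEngel 3 x) (hx : x * x = 1)
    (ha : IsConj x a) (hb : IsConj x b) (hc : IsConj x c) : Rels a b c := by
  have hg : ∀ i : ℕ, IsConj x (gen a b c i) := by
    intro i
    unfold gen
    split_ifs
    · exact ha
    · exact hb
    · exact hc
  refine ⟨fun i => sq_of_conj hx (hg i), fun i j g => four_of_conj hE hx (hg i) ?_⟩
  have h1 : IsConj (gen a b c j) (g⁻¹ * gen a b c j * g) := by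
    rw [isConj_iff]
    exact ⟨g⁻¹, by group⟩
  exact (hg j).trans h1

theorem gen_mem (a b c : G) (x : ℕ) :
    gen a b c x ∈ Subgroup.closure ({a, b, c} : Set G) := by
  unfold gen
  split_ifs
  · exact Subgroup.subset_closure (by simp)
  · exact Subgroup.subset_closure (by simp)
  · exact Subgroup.subset_closure (by simp)

/-- every element of the subgroup is a word -/
theorem mem_closure_wd {a b c : G} (hR : Rels a b c) (g : G)
    (hg : g ∈ Subgroup.closure ({a, b, c} : Set G)) :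
    ∃ l : List ℕ, (∀ x ∈ l, x < 3) ∧ g = wd a b c l := by
  induction hg using Subgroup.closure_induction with
  | mem y hy =>
    simp only [Set.mem_insert_iff, Set.mem_singleton_iff] at hy
    rcases hy with rfl | rfl | rfl
    · exact ⟨[0], by simp, by simp [wd, gen]⟩
    · exact ⟨[1], by simp, by simp [wd, gen]⟩
    · exact ⟨[2], by simp, by simp [wd, gen]⟩
  | one => exact ⟨[], by simp, by simp [wd]⟩
  | mul y z _ _ hy hz =>
    obtain ⟨l, hl, rfl⟩ := hy
    obtain ⟨l', hl', rfl⟩ := hz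
    refine ⟨l ++ l', ?_, by rw [wd_append]⟩
    intro x hx
    rcases List.mem_append.mp hx with h | h
    · exact hl x h
    · exact hl' x h
  | inv y _ hy =>
    obtain ⟨l, hl, rfl⟩ := hy
    exact ⟨l.reverse, fun x hx => hl x (List.mem_reverse.mp hx), by rw [wd_reverse hR]⟩

theorem mem_closure_val {a b c : G} (hR : Rels a b c) (g : G)
    (hg : g ∈ Subgroup.closure ({a, b, c} : Set G)) : ∃ s < 8192, g = val a b c s := by
  obtain ⟨l, hl, rfl⟩ := mem_closure_wd hR g hg
  have h1 := wd_isVal tab_ok hR (all_edges_ok hR) l hl 0 (by norm_num)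
  have h2 : val a b c 0 = 1 := by simp [val, eta, dword, wd, phi_zero]
  rw [h2, one_mul] at h1
  exact ⟨_, h1.2, h1.1⟩

theorem pow_eight {a b c : G} (hR : Rels a b c) (g : G)
    (hg : g ∈ Subgroup.closure ({a, b, c} : Set G)) : g ^ 8 = 1 := by
  obtain ⟨s, hs, rfl⟩ := mem_closure_val hR g hg
  exact pow8 tab_ok hR (all_edges_ok hR) sq_ok s hs

theorem finite_closure {a b c : G} (hR : Rels a b c) :
    Finite (Subgroup.closure ({a, b, c} : Set G)) ∧
      Nat.card (Subgroup.closure ({a, b, c} : Set G)) ≤ 8192 := by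
  choose f hf1 hf2 using fun y : Subgroup.closure ({a, b, c} : Set G) =>
    mem_closure_val hR y.1 y.2
  have hinj : Function.Injective
      (fun y : Subgroup.closure ({a, b, c} : Set G) => (⟨f y, hf1 y⟩ : Fin 8192)) := by
    intro y z hyz
    have h1 : f y = f z := by simpa using hyz
    apply Subtype.ext
    rw [hf2 y, hf2 z, h1]
  refine ⟨Finite.of_injective _ hinj, ?_⟩
  have := Nat.card_le_card_of_injective _ hinj
  simpa using this

theorem isPGroup_closure {a b c : G} (hR : Rels a b c) :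
    IsPGroup 2 (Subgroup.closure ({a, b, c} : Set G)) := by
  intro y
  refine ⟨3, ?_⟩
  apply Subtype.ext
  have := pow_eight hR y.1 y.2
  simpa using this

theorem card_dvd {a b c : G} (hR : Rels a b c) :
    Nat.card (Subgroup.closure ({a, b, c} : Set G)) ∣ 2 ^ 13 := by
  have := (finite_closure hR).1
  have : Fact (Nat.Prime 2) := ⟨Nat.prime_two⟩
  obtain ⟨n, hn⟩ := (IsPGroup.iff_card).mp (isPGroup_closure hR)
  rw [hn]
  apply pow_dvd_pow
  have h1 := (finite_closure hR).2
  rw [hn] at h1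
  by_contra hcon
  have h2 : 2 ^ 14 ≤ 2 ^ n := Nat.pow_le_pow_right (by norm_num) (by omega)
  have h3 : (2 : ℕ) ^ 14 = 16384 := by norm_num
  omega

theorem nilpotent_closure {a b c : G} (hR : Rels a b c) :
    Group.IsNilpotent (Subgroup.closure ({a, b, c} : Set G)) := by
  have := (finite_closure hR).1
  have : Fact (Nat.Prime 2) := ⟨Nat.prime_two⟩
  exact (isPGroup_closure hR).isNilpotent

end

end Pool.Agent.TCE
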