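import Pool.Agent.TCE.Sharp
import Pool.Agent.TCE.Main

/-!
The nilpotency class: at most 5 in general, and 5 in the universal example.
-/

namespace Pool.Agent.TCE

/-- the word of the commutator of the element of the state `t` with the letter `x` -/
def comW (t x : ℕ) : List ℕ := (wrd t).reverse ++ x :: (wrd t ++ [x])

/-- states of left-normed commutators of weight `6 - n` -/
def lvU : ℕ → List ℕ
  | 5 => [1, 1024, 2048]
  | 4 => [0, 1028, 2054, 7168]
  | 3 => [0, 1146, 2214, 7202]
  | 2 => [0, 1428, 2395, 3284, 3345, 4324, 4363, 6120, 7162, 8161]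
  | 1 => [0, 6120, 7162, 8161]
  | _ => [0]

/-- check of the commutators -/
def lvOK (n : ℕ) : Bool :=
  (lvU (n + 1)).all (fun t => decide (act 0 (wrd t) = t) &&
    (List.range 3).all (fun x => decide (act 0 (comW t x) ∈ lvU n)))

theorem chk_lv : ∀ n < 5, lvOK n = true := by decide +kernel

theorem chk_gen : ∀ x < 3, step 0 x ∈ lvU 5 := by decide +kernel

section

variable {G : Type*} [Group G]

theorem ucs_gen (S : Set G) (hS : Subgroup.closure S = ⊤) (n : ℕ) (y : G)
    (h : ∀ z ∈ S, y⁻¹ * z⁻¹ * y * z ∈ Subgroup.upperCentralSeries G n) :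
    y ∈ Subgroup.upperCentralSeries G (n + 1) := by
  rw [Subgroup.mem_upperCentralSeries_succ_iff]
  set N := Subgroup.upperCentralSeries G n with hN
  have h1 : Subgroup.closure S ≤
      (Subgroup.centralizer {(QuotientGroup.mk' N) y}).comap (QuotientGroup.mk' N) := by
    rw [Subgroup.closure_le]
    intro z hz
    rw [SetLike.mem_coe, Subgroup.mem_comap, Subgroup.mem_centralizer_singleton_iff]
    rw [← map_mul, ← map_mul, QuotientGroup.mk'_apply, QuotientGroup.mk'_apply, QuotientGroup.eq]
    have h2 := h z hz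
    have h3 : (z * y)⁻¹ * (y * z) = y⁻¹ * z⁻¹ * y * z := by group
    rw [h3]
    exact h2
  intro z
  have h2 : z ∈ (Subgroup.centralizer {(QuotientGroup.mk' N) y}).comap (QuotientGroup.mk' N) :=
    h1 (by rw [hS]; trivial)
  rw [Subgroup.mem_comap, Subgroup.mem_centralizer_singleton_iff] at h2
  have h3 : (QuotientGroup.mk' N) (y * z * y⁻¹ * z⁻¹) = 1 := by
    rw [map_mul, map_mul, map_mul, map_inv, map_inv]
    rw [← h2]
    group
  rw [QuotientGroup.mk'_apply, QuotientGroup.eq_one_iff] at h3
  exact h3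

theorem val_of_wrd {a b c : G} (hR : Rels a b c) (l : List ℕ) (hl : ∀ x ∈ l, x < 3) :
    wd a b c l = val a b c (act 0 l) := by
  have h1 := wd_isVal tab_ok hR (all_edges_ok hR) l hl 0 (by norm_num)
  have h2 : val a b c 0 = 1 := by simp [val, eta, dword, wd, phi_zero]
  rw [h2, one_mul] at h1
  exact h1.1

theorem comW_lt (t x : ℕ) (hx : x < 3) : ∀ y ∈ comW t x, y < 3 := by
  intro y hy
  unfold comW at hy
  simp only [List.mem_append, List.mem_reverse, List.mem_cons, List.not_mem_nil, or_false] at hy
  rcases hy with h | h | h | h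
  · exact wrd_lt t y h
  · omega
  · exact wrd_lt t y h
  · omega

theorem wd_comW {a b c : G} (hR : Rels a b c) (t x : ℕ) :
    wd a b c (comW t x) =
      (wd a b c (wrd t))⁻¹ * (gen a b c x)⁻¹ * wd a b c (wrd t) * gen a b c x := by
  unfold comW
  rw [wd_append, wd_reverse hR, wd, wd_append, gen_inv hR]
  simp [wd, mul_assoc]

theorem lv_mem {a b c : G} (hR : Rels a b c) (n : ℕ) : n ≤ 5 → ∀ t ∈ lvU n,
    ∀ y : Subgroup.closure ({a, b, c} : Set G), y.1 = val a b c t →
      y ∈ Subgroup.upperCentralSeries (Subgroup.closure ({a, b, c} : Set G)) n := by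
  induction n with
  | zero =>
    intro _ t ht y hy
    have h0 : t = 0 := by simpa [lvU] using ht
    subst h0
    have h2 : val a b c 0 = 1 := by simp [val, eta, dword, wd, phi_zero]
    rw [h2] at hy
    rw [Subgroup.upperCentralSeries_zero, Subgroup.mem_bot]
    exact Subtype.ext hy
  | succ n ih =>
    intro hn t ht y hy
    have h1 := chk_lv n (by omega)
    unfold lvOK at h1
    rw [List.all_eq_true] at h1
    have h2 := h1 t ht
    rw [Bool.and_eq_true, decide_eq_true_eq, List.all_eq_true] at h2
    have hw : wd a b c (wrd t) = val a b c t := by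
      rw [val_of_wrd hR (wrd t) (fun x hx => wrd_lt t x hx), h2.1]
    refine ucs_gen (((↑) : Subgroup.closure ({a, b, c} : Set G) → G) ⁻¹' ({a, b, c} : Set G))
      (Subgroup.closure_closure_coe_preimage) n y ?_
    intro z hz
    obtain ⟨x, hx, hzx⟩ : ∃ x < 3, z.1 = gen a b c x := by
      have hz' : z.1 = a ∨ z.1 = b ∨ z.1 = c := by simpa using hz
      rcases hz' with h | h | h
      · exact ⟨0, by norm_num, by simpa [gen] using h⟩
      · exact ⟨1, by norm_num, by simpa [gen] using h⟩
      · exact ⟨2, by norm_num, by simpa [gen] using h⟩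
    have h3 := h2.2 x (List.mem_range.mpr hx)
    rw [decide_eq_true_eq] at h3
    refine ih (by omega) _ h3 _ ?_
    rw [← val_of_wrd hR _ (comW_lt t x hx), wd_comW hR, hw]
    simp [hy, hzx]

theorem ucs_top {a b c : G} (hR : Rels a b c) :
    Subgroup.upperCentralSeries (Subgroup.closure ({a, b, c} : Set G)) 5 = ⊤ := by
  rw [eq_top_iff, ← Subgroup.closure_closure_coe_preimage (k := ({a, b, c} : Set G)),
    Subgroup.closure_le]
  intro z hz
  obtain ⟨x, hx, hzx⟩ : ∃ x < 3, z.1 = gen a b c x := by
    have hz' : z.1 = a ∨ z.1 = b ∨ z.1 = c := by simpa using hz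
    rcases hz' with h | h | h
    · exact ⟨0, by norm_num, by simpa [gen] using h⟩
    · exact ⟨1, by norm_num, by simpa [gen] using h⟩
    · exact ⟨2, by norm_num, by simpa [gen] using h⟩
  refine lv_mem hR 5 le_rfl (step 0 x) (chk_gen x hx) z ?_
  rw [hzx]
  have h1 := val_of_wrd hR [x] (by simpa using hx)
  rw [show act 0 [x] = step 0 x from rfl] at h1
  rw [← h1]
  simp [wd]

theorem class_le {a b c : G} (hR : Rels a b c) :
    Group.nilpotencyClass (Subgroup.closure ({a, b, c} : Set G)) ≤ 5 := by
  have := nilpotent_closure hR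
  exact Subgroup.upperCentralSeries_eq_top_iff_nilpotencyClass_le.mp (ucs_top hR)

theorem exponent_dvd {a b c : G} (hR : Rels a b c) :
    Monoid.exponent (Subgroup.closure ({a, b, c} : Set G)) ∣ 8 := by
  apply Monoid.exponent_dvd_of_forall_pow_eq_one
  intro y
  apply Subtype.ext
  have := pow_eight hR y.1 y.2
  simpa using this

end

end Pool.Agent.TCE
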