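import Pool.Agent.TCE.Class

/-!
The example: in a wreath product of the group of order 8192 with a cyclic group of order 3 there is
a left 3-Engel involution with three conjugates that generate a group of order 8192.
-/

namespace Pool.Agent.TCE

/-- first generator -/
def aW : W := ⟨pa, Subgroup.subset_closure (by simp)⟩

/-- second generator -/
def bW : W := ⟨pb, Subgroup.subset_closure (by simp)⟩

/-- third generator -/
def cW : W := ⟨pc, Subgroup.subset_closure (by simp)⟩

theorem gen_W (x : ℕ) : (gen aW bW cW x).1 = gen pa pb pc x := by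
  unfold gen
  split_ifs <;> rfl

theorem rels_W : Rels aW bW cW := by
  refine ⟨fun x => ?_, fun i j g => ?_⟩
  · apply Subtype.ext
    rw [Subgroup.coe_mul, gen_W, gen_sq]
    rfl
  · apply Subtype.ext
    rw [Subgroup.coe_pow, Subgroup.coe_mul, Subgroup.coe_mul, Subgroup.coe_mul, gen_W, gen_W]
    exact four_W i j g.1 g.2

theorem wd_pw (l : List ℕ) : (wd aW bW cW l).1 * pw l = 1 := by
  induction l with
  | nil => simp [wd, pw]
  | cons x l ih =>
    rw [wd, pw, Subgroup.coe_mul, gen_W]
    rw [show gen pa pb pc x * (wd aW bW cW l).1 * (pw l * gen pa pb pc x) =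
      gen pa pb pc x * ((wd aW bW cW l).1 * pw l) * gen pa pb pc x by simp only [mul_assoc]]
    rw [ih, mul_one, gen_sq]

theorem wd_ne (l : List ℕ) (hl : ∀ x ∈ l, x < 3) (h : act 0 l ≠ 0) : wd aW bW cW l ≠ 1 := by
  intro h1
  have h2 := wd_pw l
  rw [h1] at h2
  have h3 : pw l = 1 := by simpa using h2
  have h4 := pw_coe l hl 0
  rw [h3] at h4
  exact h (by simpa using h4.symm)

/-- the commutator of a word with a letter -/
def cw (l : List ℕ) (x : ℕ) : List ℕ := l ++ x :: (l.reverse ++ [x])

theorem wd_cw (l : List ℕ) (x : ℕ) : wd aW bW cW (cw l x) =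
    wd aW bW cW l * gen aW bW cW x * (wd aW bW cW l)⁻¹ * (gen aW bW cW x)⁻¹ := by
  unfold cw
  rw [wd_append, wd, wd_append, wd_reverse rels_W, gen_inv rels_W]
  simp [wd, mul_assoc]

theorem ucs_cw (n : ℕ) (l : List ℕ) (x : ℕ)
    (h : wd aW bW cW l ∈ Subgroup.upperCentralSeries W (n + 1)) :
    wd aW bW cW (cw l x) ∈ Subgroup.upperCentralSeries W n := by
  rw [Subgroup.mem_upperCentralSeries_succ_iff] at h
  rw [wd_cw]
  exact h (gen aW bW cW x)

theorem chk_five : act 0 (cw (cw (cw (cw [0] 1) 2) 0) 1) ≠ 0 ∧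
    (∀ x ∈ cw (cw (cw (cw [0] 1) 2) 0) 1, x < 3) := by decide +kernel

theorem chk_four : act 0 (wrd 5 ++ (wrd 5 ++ (wrd 5 ++ wrd 5))) ≠ 0 := by decide +kernel

/-! ### The wreath product -/

/-- the cyclic group of order 3 -/
abbrev Q3 : Type := Multiplicative (ZMod 3)

/-- the wreath product -/
abbrev V : Type := RegularWreathProduct W Q3

/-- the coordinates of the involution -/
def gx (q : Q3) : W := gen aW bW cW (Multiplicative.toAdd q).val

/-- the involution -/
def xx : V := ⟨gx, 1⟩

theorem pow_base (m : V) (hm : m.right = 1) (n : ℕ) :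
    (m ^ n).left = m.left ^ n ∧ (m ^ n).right = 1 := by
  induction n with
  | zero => simp
  | succ n ih =>
    rw [pow_succ, pow_succ, RegularWreathProduct.mul_left, RegularWreathProduct.mul_right,
      ih.1, ih.2, hm]
    simp

theorem xx_sq : xx * xx = 1 := by
  apply RegularWreathProduct.ext
  · funext p
    simp [xx, gx, rels_W.sq]
  · simp [xx]

theorem four_swap {H : Type*} [Group H] (u v : H) (h : (u * v) ^ 4 = 1) : (v * u) ^ 4 = 1 := by
  have h1 : v * u = v * (u * v) * v⁻¹ := by group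
  rw [h1, conj_pow, h]
  simp

theorem xx_four (g : V) : (g⁻¹ * xx * g * xx) ^ 4 = 1 := by
  have hr : (g⁻¹ * xx * g * xx).right = 1 := by simp [xx]
  have hl : ∀ p, (g⁻¹ * xx * g * xx).left p =
      ((g.left (g.right * p))⁻¹ * gx (g.right * p) * g.left (g.right * p)) * gx p := by
    intro p
    simp [xx, mul_assoc]
  have h1 := pow_base _ hr 4
  apply RegularWreathProduct.ext
  · funext p
    rw [h1.1, Pi.pow_apply, hl p]
    exact four_swap _ _ (rels_W.four _ _ _)
  · rw [h1.2]
    rfl

theorem xx_engel : IsLeftEngel 3 xx := by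
  intro g
  rw [eng_three _ _ xx_sq]
  exact xx_four g

/-- the conjugates -/
def yy (q : Q3) : V := RegularWreathProduct.inl q * xx * (RegularWreathProduct.inl q)⁻¹

theorem yy_conj (q : Q3) : IsConj xx (yy q) := isConj_iff.mpr ⟨_, rfl⟩

theorem yy_right (q : Q3) : (yy q).right = 1 := by simp [yy, xx]

theorem yy_left (q : Q3) : (yy q).left 1 = gx q⁻¹ := by simp [yy, xx]

/-- the three conjugates -/
abbrev y0 : V := yy 1

/-- the three conjugates -/
abbrev y1 : V := yy (Multiplicative.ofAdd 2)

/-- the three conjugates -/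
abbrev y2 : V := yy (Multiplicative.ofAdd 1)

/-- the subgroup -/
abbrev K : Subgroup V := Subgroup.closure {y0, y1, y2}

theorem rels_y : Rels y0 y1 y2 :=
  rels_of_engel xx_engel xx_sq (yy_conj _) (yy_conj _) (yy_conj _)

theorem K_right (k : V) (hk : k ∈ K) : k.right = 1 := by
  have h1 : K ≤ (RegularWreathProduct.rightHom : V →* Q3).ker := by
    rw [Subgroup.closure_le]
    intro z hz
    simp only [Set.mem_insert_iff, Set.mem_singleton_iff] at hz
    rw [SetLike.mem_coe, MonoidHom.mem_ker]
    rcases hz with rfl | rfl | rfl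
    · exact yy_right _
    · exact yy_right _
    · exact yy_right _
  exact h1 hk

/-- the projection -/
def prj : K →* W where
  toFun k := k.1.left 1
  map_one' := rfl
  map_mul' k l := by
    rw [Subgroup.coe_mul, RegularWreathProduct.mul_left, Pi.mul_apply, K_right k.1 k.2]
    simp

theorem prj_gen (x : ℕ) : (gen y0 y1 y2 x).left 1 = gen aW bW cW x := by
  unfold gen
  split_ifs
  · rw [yy_left]; rfl
  · rw [yy_left]; rfl
  · rw [yy_left]; rfl

theorem prj_pw (l : List ℕ) : ∃ k : K, (prj k).1 = pw l := by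
  induction l with
  | nil => exact ⟨1, by simp [pw]⟩
  | cons x l ih =>
    obtain ⟨k, hk⟩ := ih
    refine ⟨k * ⟨gen y0 y1 y2 x, gen_mem _ _ _ x⟩, ?_⟩
    rw [map_mul, Subgroup.coe_mul, hk, pw]
    congr 1
    rw [← gen_W, ← prj_gen]
    rfl

theorem prj_surj : Function.Surjective prj := by
  intro w
  obtain ⟨l, _, h⟩ := exists_pw w.1 w.2
  obtain ⟨k, hk⟩ := prj_pw l
  exact ⟨k, Subtype.ext (by rw [hk, h])⟩

theorem card_K : Nat.card K = 2 ^ 13 := by
  have hf := (finite_closure rels_y).1
  have h1 : Nat.card K ∣ 2 ^ 13 := card_dvd rels_y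
  have h2 : Function.Surjective (fun k : K => (prj k).1 0) := by
    intro t
    obtain ⟨l, _, h⟩ := exists_word t
    obtain ⟨k, hk⟩ := prj_pw l
    exact ⟨k, by simp only [hk, h]⟩
  have h3 := Nat.card_le_card_of_surjective _ h2
  rw [Nat.card_eq_fintype_card, Fintype.card_fin] at h3
  have h4 := Nat.le_of_dvd (by norm_num) h1
  have h5 : (2 : ℕ) ^ 13 = 8192 := by norm_num
  omega

theorem nilp_K : Group.IsNilpotent K := nilpotent_closure rels_y

theorem class_K : Group.nilpotencyClass K = 5 := by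
  have hK := nilp_K
  refine le_antisymm (class_le rels_y) ?_
  by_contra hcon
  have hW : Group.IsNilpotent W := Group.nilpotent_of_surjective prj prj_surj
  have h1 : Group.nilpotencyClass W ≤ 4 :=
    le_trans (Group.nilpotencyClass_le_of_surjective prj prj_surj) (by omega)
  have h2 := Subgroup.upperCentralSeries_eq_top_iff_nilpotencyClass_le.mpr h1
  have h3 : wd aW bW cW [0] ∈ Subgroup.upperCentralSeries W 4 := by rw [h2]; trivial
  have h4 := ucs_cw 0 _ 1 (ucs_cw 1 _ 0 (ucs_cw 2 _ 2 (ucs_cw 3 _ 1 h3)))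
  rw [Subgroup.upperCentralSeries_zero, Subgroup.mem_bot] at h4
  exact wd_ne _ chk_five.2 chk_five.1 h4

theorem exponent_K : Monoid.exponent K = 8 := by
  have h1 : Monoid.exponent K ∣ 2 ^ 3 := exponent_dvd rels_y
  obtain ⟨m, hm, h2⟩ := (Nat.dvd_prime_pow Nat.prime_two).mp h1
  rcases Nat.lt_or_ge m 3 with h3 | h3
  · exfalso
    have h4 : Monoid.exponent K ∣ 4 := by
      rw [h2]
      exact pow_dvd_pow 2 (show m ≤ 2 by omega)
    have h5 := Monoid.exponent_dvd_iff_forall_pow_eq_one.mp h4
    have hw : ∀ x ∈ wrd 5 ++ (wrd 5 ++ (wrd 5 ++ wrd 5)), x < 3 := by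
      intro x hx
      simp only [List.mem_append] at hx
      rcases hx with h | h | h | h <;> exact wrd_lt 5 x h
    apply wd_ne _ hw chk_four
    obtain ⟨k, hk⟩ := prj_surj (wd aW bW cW (wrd 5))
    have h6 : wd aW bW cW (wrd 5) ^ 4 = 1 := by
      rw [← hk, ← map_pow, h5 k, map_one]
    rw [wd_append, wd_append, wd_append, ← h6]
    simp only [pow_succ, pow_zero, one_mul, mul_assoc]
  · have h4 : m = 3 := by omega
    rw [h2, h4]; norm_num

end Pool.Agent.TCE
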