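import Pool.Agent.TCE.SData

/-!
The group of order 8192 as a regular permutation group: the universal example.
-/

namespace Pool.Agent.TCE

/-! ### Programs and checks -/

/-- letters of the representative of a vertex -/
def phiw : ℕ → ℕ → List ℕ
  | 0, _ => []
  | n + 1, i => if i = 0 then [] else phiw n (par i) ++ [px i]

/-- a word for a state -/
def wrd (t : ℕ) : List ℕ := dword (t / 1024) ++ phiw 20 (t % 1024)

/-- left multiplication by the first generator -/
def la (s : ℕ) : ℕ := (laT >>> (13 * s)) % 8192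

/-- left multiplications by the generators -/
def lm (y s : ℕ) : ℕ := if y = 0 then la s else mulD y (s / 1024) * 1024 + s % 1024

/-- check that an edge and its inverse fit -/
def invOK (e : ℕ) : Bool :=
  decide (tb (3 * (tb e % 1024) + e % 3) % 1024 = e / 3) &&
    decide (mulD (tb e / 1024) (tb (3 * (tb e % 1024) + e % 3) / 1024) = 0)

/-- check of the associativity of the labels -/
def assOK (k : ℕ) : Bool :=
  decide (mulD (mulD (k / 64) (k / 8 % 8)) (k % 8) = mulD (k / 64) (mulD (k / 8 % 8) (k % 8)))

/-- check that left and right multiplications commute -/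
def laOK (s : ℕ) : Bool :=
  decide (la (step s 0) = step (la s) 0) &&
    (decide (la (step s 1) = step (la s) 1) && decide (la (step s 2) = step (la s) 2))

/-- check of a tree edge -/
def treeOK (k : ℕ) : Bool := decide (k = 0) || decide (tb (3 * par k + px k) = k)

/-- the word `(w i)^4` applied to the state 0 -/
def quad (w : List ℕ) (i : ℕ) : ℕ :=
  step (act (step (act (step (act (step (act 0 w) i) w) i) w) i) w) i

/-- check of a conjugate -/
def clsOK (t : ℕ) : Bool :=
  decide (t < 8192) && (decide (act 0 (wrd t) = t) &&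
    (List.range 3).all (fun i =>
      decide (step (act (step 0 i) (wrd t)) i ∈ clsL) && decide (quad (wrd t) i = 0)))

theorem chk_inv : allB invOK 3072 = true := by decide +kernel

theorem chk_ass : allB assOK 512 = true := by decide +kernel

theorem chk_la : allB laOK 8192 = true := by decide +kernel

theorem chk_tree : allB treeOK 1024 = true := by decide +kernel

theorem chk_cls : clsL.all clsOK = true := by decide +kernel

theorem chk_id : ∀ h < 8, mulD h 0 = h ∧ mulD 0 h = h ∧ act 0 (dword h) = 1024 * h := by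
  decide +kernel

theorem chk_l0 : ∀ x < 3, lm x 0 = step 0 x ∧ step 0 x ∈ clsL := by decide +kernel

/-! ### Elementary facts -/

theorem lm_lt (y s : ℕ) : lm y s < 8192 := by
  unfold lm
  split_ifs
  · exact Nat.mod_lt _ (by norm_num)
  · have := mulD_lt y (s / 1024)
    omega

theorem mulD_assoc (h g k : ℕ) (hh : h < 8) (hg : g < 8) (hk : k < 8) :
    mulD (mulD h g) k = mulD h (mulD g k) := by
  have h1 := allB_spec _ _ chk_ass (64 * h + 8 * g + k) (by omega)
  unfold assOK at h1
  have e1 : (64 * h + 8 * g + k) / 64 = h := by omega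
  have e2 : (64 * h + 8 * g + k) / 8 % 8 = g := by omega
  have e3 : (64 * h + 8 * g + k) % 8 = k := by omega
  rw [decide_eq_true_eq, e1, e2, e3] at h1
  exact h1

theorem step_step (x s : ℕ) (hx : x < 3) (hs : s < 8192) : step (step s x) x = s := by
  have h1 := allB_spec _ _ chk_inv (3 * (s % 1024) + x) (by omega)
  unfold invOK at h1
  have e1 : (3 * (s % 1024) + x) / 3 = s % 1024 := by omega
  have e2 : (3 * (s % 1024) + x) % 3 = x := by omega
  rw [e1, e2, Bool.and_eq_true, decide_eq_true_eq, decide_eq_true_eq] at h1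
  have e3 : step (step s x) x / 1024 = s / 1024 := by
    rw [step_div, step_div, step_mod, mulD_assoc _ _ _ (by omega) (tb_div _) (tb_div _), h1.2]
    exact (chk_id _ (by omega)).1
  have e4 : step (step s x) x % 1024 = s % 1024 := by
    rw [step_mod, step_mod]; exact h1.1
  omega

theorem lm_step (x y s : ℕ) (hx : x < 3) (hs : s < 8192) (hy : y < 3) :
    lm y (step s x) = step (lm y s) x := by
  by_cases h0 : y = 0
  · subst h0
    have h1 := allB_spec _ _ chk_la s hs
    unfold laOK at h1
    rw [Bool.and_eq_true, Bool.and_eq_true, decide_eq_true_eq, decide_eq_true_eq,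
      decide_eq_true_eq] at h1
    simp only [lm, if_true]
    interval_cases x
    · exact h1.1
    · exact h1.2.1
    · exact h1.2.2
  · simp only [lm, h0, if_false]
    have e0 := mulD_lt y (s / 1024)
    have e1 : (mulD y (s / 1024) * 1024 + s % 1024) / 1024 = mulD y (s / 1024) := by omega
    have e2 : (mulD y (s / 1024) * 1024 + s % 1024) % 1024 = s % 1024 := by omega
    have e3 : step (mulD y (s / 1024) * 1024 + s % 1024) x / 1024 =
        mulD y (step s x / 1024) := by
      rw [step_div, step_div, e1, e2, mulD_assoc _ _ _ (by omega) (by omega) (tb_div _)]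
    have e4 : step (mulD y (s / 1024) * 1024 + s % 1024) x % 1024 = step s x % 1024 := by
      rw [step_mod, step_mod, e2]
    omega

theorem act_append (l l' : List ℕ) : ∀ s, act s (l ++ l') = act (act s l) l' := by
  induction l with
  | nil => intro s; rfl
  | cons x l ih => intro s; exact ih _

theorem act_lt (l : List ℕ) : ∀ s < 8192, act s l < 8192 := by
  induction l with
  | nil => intro s hs; exact hs
  | cons x l ih => intro s _; exact ih _ (step_lt s x)

theorem phiw_lt (n : ℕ) : ∀ i < 1024, ∀ x ∈ phiw n i, x < 3 := by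
  induction n with
  | zero => intro i _ x hx; simp [phiw] at hx
  | succ n ih =>
    intro i hi x hx
    rw [phiw] at hx
    split_ifs at hx with h0
    · simp at hx
    · have h1 := allB_spec _ _ chk_pr i hi
      unfold parOK at h1
      simp only [Bool.or_eq_true, Bool.and_eq_true, decide_eq_true_eq] at h1
      have h2 : par i < i ∧ px i < 3 := by
        rcases h1 with h1 | h1
        · exact absurd h1 h0
        · exact h1
      rcases List.mem_append.mp hx with h | h
      · exact ih (par i) (by omega) x h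
      · rw [List.mem_singleton] at h
        rw [h]; exact h2.2

theorem wrd_lt (t x : ℕ) (hx : x ∈ wrd t) : x < 3 := by
  rcases List.mem_append.mp hx with h | h
  · rcases dword_mem _ _ h with h | h <;> omega
  · exact phiw_lt 20 _ (by omega) x h

/-- all states can be reached -/
theorem tree_ind (Q : ℕ → Prop) (h0 : Q 0)
    (hQ : ∀ s < 8192, ∀ x < 3, Q s → Q (step s x)) : ∀ s < 8192, Q s := by
  have hact : ∀ l : List ℕ, (∀ x ∈ l, x < 3) → ∀ s < 8192, Q s → Q (act s l) := by
    intro l
    induction l with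
    | nil => intro _ s _ h; exact h
    | cons x l ih =>
      intro hl s hs h
      exact ih (fun y hy => hl y (by simp [hy])) _ (step_lt s x)
        (hQ s hs x (hl x (by simp)) h)
  have hh : ∀ h < 8, Q (1024 * h) := by
    intro h hh
    rw [← (chk_id h hh).2.2]
    exact hact _ (fun x hx => by rcases dword_mem _ _ hx with h | h <;> omega) 0
      (by norm_num) h0
  have hk : ∀ k < 1024, ∀ h < 8, Q (1024 * h + k) := by
    intro k
    induction k using Nat.strong_induction_on with
    | _ k ih =>
      intro hk h hh1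
      by_cases hk0 : k = 0
      · subst hk0; exact hh h hh1
      · have h1 := allB_spec _ _ chk_pr k hk
        unfold parOK at h1
        simp only [Bool.or_eq_true, Bool.and_eq_true, decide_eq_true_eq] at h1
        have h2 : par k < k ∧ px k < 3 := by
          rcases h1 with h1 | h1
          · exact absurd h1 hk0
          · exact h1
        have h3 := allB_spec _ _ chk_tree k hk
        unfold treeOK at h3
        simp only [Bool.or_eq_true, decide_eq_true_eq] at h3
        have h4 : tb (3 * par k + px k) = k := by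
          rcases h3 with h3 | h3
          · exact absurd h3 hk0
          · exact h3
        have h5 := ih (par k) h2.1 (by omega) h hh1
        have h6 := hQ (1024 * h + par k) (by omega) (px k) h2.2 h5
        have e1 : (1024 * h + par k) / 1024 = h := by omega
        have e2 : (1024 * h + par k) % 1024 = par k := by omega
        have e3 : step (1024 * h + par k) (px k) = 1024 * h + k := by
          have e4 : step (1024 * h + par k) (px k) / 1024 = h := by
            rw [step_div, e1, e2, h4, show k / 1024 = 0 by omega]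
            exact (chk_id h hh1).1
          have e5 : step (1024 * h + par k) (px k) % 1024 = k := by
            rw [step_mod, e2, h4]; omega
          omega
        rw [e3] at h6
        exact h6
  intro s hs
  have h1 := hk (s % 1024) (by omega) (s / 1024) (by omega)
  rw [show 1024 * (s / 1024) + s % 1024 = s by omega] at h1
  exact h1

/-! ### The permutation group -/

/-- right multiplication by a letter -/
def rfun (x : ℕ) (s : Fin 8192) : Fin 8192 := ⟨step s x, step_lt s x⟩

/-- left multiplication by a letter -/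
def lfun (y : ℕ) (s : Fin 8192) : Fin 8192 := ⟨lm y s, lm_lt y s⟩

theorem rfun_inv (x : ℕ) (hx : x < 3) : Function.Involutive (rfun x) := by
  intro s
  apply Fin.ext
  exact step_step x s hx s.2

theorem lfun_rfun (x y : ℕ) (hx : x < 3) (hy : y < 3) (s : Fin 8192) :
    rfun x (lfun y s) = lfun y (rfun x s) := by
  apply Fin.ext
  exact (lm_step x y s hx s.2 hy).symm

/-- first generator -/
def pa : Equiv.Perm (Fin 8192) := (rfun_inv 0 (by norm_num)).toPerm

/-- second generator -/
def pb : Equiv.Perm (Fin 8192) := (rfun_inv 1 (by norm_num)).toPerm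

/-- third generator -/
def pc : Equiv.Perm (Fin 8192) := (rfun_inv 2 (by norm_num)).toPerm

theorem gen_apply (x : ℕ) (hx : x < 3) (s : Fin 8192) : gen pa pb pc x s = rfun x s := by
  interval_cases x <;> rfl

theorem gen_coe (x : ℕ) (hx : x < 3) (s : Fin 8192) :
    (gen pa pb pc x s : ℕ) = step s x := by
  rw [gen_apply x hx]; rfl

theorem gen_min {G : Type*} (a b c : G) [Group G] (x : ℕ) :
    gen a b c x = gen a b c (min x 2) := by
  unfold gen
  rcases Nat.lt_or_ge x 2 with h | h
  · rw [min_eq_left h.le]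
  · rw [min_eq_right h]
    simp [show x ≠ 0 by omega, show x ≠ 1 by omega]

theorem gen_sq (x : ℕ) : gen pa pb pc x * gen pa pb pc x = 1 := by
  rw [gen_min]
  have hx : min x 2 < 3 := by omega
  apply Equiv.ext
  intro s
  rw [Equiv.Perm.mul_apply, gen_apply _ hx, gen_apply _ hx]
  exact rfun_inv _ hx s

/-- the group -/
abbrev W : Subgroup (Equiv.Perm (Fin 8192)) := Subgroup.closure {pa, pb, pc}

theorem gen_memW (x : ℕ) : gen pa pb pc x ∈ W := by
  unfold gen
  split_ifs
  · exact Subgroup.subset_closure (by simp)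
  · exact Subgroup.subset_closure (by simp)
  · exact Subgroup.subset_closure (by simp)

theorem comm_lfun (y : ℕ) (hy : y < 3) (g : Equiv.Perm (Fin 8192)) (hg : g ∈ W) :
    ∀ s, g (lfun y s) = lfun y (g s) := by
  induction hg using Subgroup.closure_induction with
  | mem z hz =>
    intro s
    simp only [Set.mem_insert_iff, Set.mem_singleton_iff] at hz
    rcases hz with rfl | rfl | rfl
    · exact lfun_rfun 0 y (by norm_num) hy s
    · exact lfun_rfun 1 y (by norm_num) hy s
    · exact lfun_rfun 2 y (by norm_num) hy s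
  | one => intro s; rfl
  | mul u v _ _ hu hv =>
    intro s
    rw [Equiv.Perm.mul_apply, Equiv.Perm.mul_apply, hv, hu]
  | inv u _ hu =>
    intro s
    apply u.injective
    rw [hu]
    simp

/-- iterated left multiplication -/
def lact : List ℕ → Fin 8192 → Fin 8192
  | [], s => s
  | y :: l, s => lfun y (lact l s)

theorem lact_append (l l' : List ℕ) (s : Fin 8192) : lact (l ++ l') s = lact l (lact l' s) := by
  induction l with
  | nil => rfl
  | cons y l ih => simp [lact, ih]

theorem lact_comm (l : List ℕ) (hl : ∀ y ∈ l, y < 3) (g : Equiv.Perm (Fin 8192))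
    (hg : g ∈ W) (s : Fin 8192) : g (lact l s) = lact l (g s) := by
  induction l with
  | nil => rfl
  | cons y l ih =>
    rw [lact, lact, comm_lfun y (hl y (by simp)) g hg, ih (fun z hz => hl z (by simp [hz]))]

theorem lact_surj (t : Fin 8192) : ∃ l : List ℕ, (∀ y ∈ l, y < 3) ∧ t = lact l 0 := by
  obtain ⟨t, ht⟩ := t
  refine tree_ind (fun s => ∀ hs : s < 8192, ∃ l : List ℕ, (∀ y ∈ l, y < 3) ∧
    (⟨s, hs⟩ : Fin 8192) = lact l 0) ?_ ?_ t ht ht
  · intro hs
    exact ⟨[], by simp, rfl⟩
  · intro s hs x hx h hs'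
    obtain ⟨l, hl, h1⟩ := h hs
    refine ⟨l ++ [x], ?_, ?_⟩
    · intro y hy
      rcases List.mem_append.mp hy with h2 | h2
      · exact hl y h2
      · rw [List.mem_singleton] at h2; rw [h2]; exact hx
    · have h2 : (⟨step s x, hs'⟩ : Fin 8192) = gen pa pb pc x ⟨s, hs⟩ := by
        rw [gen_apply x hx]; rfl
      rw [h2, h1, lact_comm l hl _ (gen_memW x), lact_append]
      congr 1
      rw [gen_apply x hx]
      apply Fin.ext
      exact (chk_l0 x hx).1.symm

/-- the group is regular -/
theorem reg (g : Equiv.Perm (Fin 8192)) (hg : g ∈ W) (h : g 0 = 0) : g = 1 := by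
  apply Equiv.ext
  intro t
  obtain ⟨l, hl, rfl⟩ := lact_surj t
  rw [lact_comm l hl g hg, h]
  rfl

theorem reg' (g h : Equiv.Perm (Fin 8192)) (hg : g ∈ W) (hh : h ∈ W) (h0 : g 0 = h 0) :
    g = h := by
  have h1 := reg (h⁻¹ * g) (W.mul_mem (W.inv_mem hh) hg) (by
    rw [Equiv.Perm.mul_apply, h0]
    simp)
  rw [inv_mul_eq_one] at h1
  exact h1.symm

/-- the element of a word -/
def pw : List ℕ → Equiv.Perm (Fin 8192)
  | [] => 1
  | x :: l => pw l * gen pa pb pc x

theorem pw_mem (l : List ℕ) : pw l ∈ W := by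
  induction l with
  | nil => exact W.one_mem
  | cons x l ih => exact W.mul_mem ih (gen_memW x)

theorem pw_coe (l : List ℕ) (hl : ∀ x ∈ l, x < 3) :
    ∀ s : Fin 8192, (pw l s : ℕ) = act s l := by
  induction l with
  | nil => intro s; rfl
  | cons x l ih =>
    intro s
    rw [pw, Equiv.Perm.mul_apply, ih (fun y hy => hl y (by simp [hy])),
      gen_coe x (hl x (by simp)), act]

theorem exists_word (t : Fin 8192) :
    ∃ l : List ℕ, (∀ x ∈ l, x < 3) ∧ pw l 0 = t := by
  obtain ⟨t, ht⟩ := t
  have h1 : ∃ l : List ℕ, (∀ x ∈ l, x < 3) ∧ act 0 l = t := by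
    refine tree_ind (fun s => ∃ l : List ℕ, (∀ x ∈ l, x < 3) ∧ act 0 l = s) ⟨[], by simp, rfl⟩
      ?_ t ht
    intro s hs x hx h
    obtain ⟨l, hl, h1⟩ := h
    refine ⟨l ++ [x], ?_, by rw [act_append, h1]; rfl⟩
    intro y hy
    rcases List.mem_append.mp hy with h2 | h2
    · exact hl y h2
    · rw [List.mem_singleton] at h2; rw [h2]; exact hx
  obtain ⟨l, hl, h2⟩ := h1
  refine ⟨l, hl, ?_⟩
  apply Fin.ext
  rw [pw_coe l hl]
  exact h2

theorem exists_pw (g : Equiv.Perm (Fin 8192)) (hg : g ∈ W) :
    ∃ l : List ℕ, (∀ x ∈ l, x < 3) ∧ g = pw l := by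
  obtain ⟨l, hl, h⟩ := exists_word (g 0)
  exact ⟨l, hl, reg' g (pw l) hg (pw_mem l) h.symm⟩

theorem cls_spec (t : ℕ) (ht : t ∈ clsL) : t < 8192 ∧ act 0 (wrd t) = t ∧
    ∀ i < 3, step (act (step 0 i) (wrd t)) i ∈ clsL ∧ quad (wrd t) i = 0 := by
  have h1 := List.all_eq_true.mp chk_cls t ht
  unfold clsOK at h1
  rw [Bool.and_eq_true, Bool.and_eq_true, decide_eq_true_eq, decide_eq_true_eq,
    List.all_eq_true] at h1
  refine ⟨h1.1, h1.2.1, fun i hi => ?_⟩
  have h2 := h1.2.2 i (List.mem_range.mpr hi)
  rw [Bool.and_eq_true, decide_eq_true_eq, decide_eq_true_eq] at h2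
  exact h2

/-- an element of the class is given by its word -/
theorem cls_eq (e : Equiv.Perm (Fin 8192)) (he : e ∈ W) (h : (e 0 : ℕ) ∈ clsL) :
    e = pw (wrd (e 0 : ℕ)) := by
  refine reg' e _ he (pw_mem _) ?_
  apply Fin.ext
  rw [pw_coe _ (fun x hx => wrd_lt _ x hx)]
  exact (cls_spec _ h).2.1.symm

theorem gen_inv' (x : ℕ) : (gen pa pb pc x)⁻¹ = gen pa pb pc x :=
  inv_eq_of_mul_eq_one_right (gen_sq x)

theorem conj_cls (l : List ℕ) (hl : ∀ x ∈ l, x < 3) :
    ∀ e ∈ W, (e 0 : ℕ) ∈ clsL → (((pw l)⁻¹ * e * pw l) 0 : ℕ) ∈ clsL := by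
  induction l with
  | nil => intro e _ h; simpa [pw] using h
  | cons x l ih =>
    intro e he h
    have hx := hl x (by simp)
    have h1 := ih (fun y hy => hl y (by simp [hy])) e he h
    have hm : (pw l)⁻¹ * e * pw l ∈ W := W.mul_mem (W.mul_mem (W.inv_mem (pw_mem l)) he) (pw_mem l)
    have h2 : (pw (x :: l))⁻¹ * e * pw (x :: l) =
        gen pa pb pc x * ((pw l)⁻¹ * e * pw l) * gen pa pb pc x := by
      rw [pw, mul_inv_rev, gen_inv' x]
      simp only [mul_assoc]
    rw [h2]
    revert h1 hm
    generalize (pw l)⁻¹ * e * pw l = f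
    intro h1 hm
    have h3 := cls_eq f hm h1
    rw [Equiv.Perm.mul_apply, Equiv.Perm.mul_apply, gen_coe x hx]
    have h4 : (f (gen pa pb pc x 0) : ℕ) = act (step 0 x) (wrd (f 0 : ℕ)) := by
      conv_lhs => rw [h3]
      rw [pw_coe _ (fun y hy => wrd_lt _ y hy), gen_coe x hx]
      rfl
    rw [h4]
    exact ((cls_spec _ h1).2.2 x hx).1

theorem four_W (i j : ℕ) (g : Equiv.Perm (Fin 8192)) (hg : g ∈ W) :
    (gen pa pb pc i * (g⁻¹ * gen pa pb pc j * g)) ^ 4 = 1 := by
  rw [gen_min _ _ _ i, gen_min _ _ _ j]
  have hi : min i 2 < 3 := by omega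
  have hj : min j 2 < 3 := by omega
  generalize min i 2 = i at hi
  generalize min j 2 = j at hj
  obtain ⟨l, hl, rfl⟩ := exists_pw g hg
  have h1 := conj_cls l hl (gen pa pb pc j) (gen_memW j) (by
    rw [gen_coe j hj]; exact (chk_l0 j hj).2)
  have hm : (pw l)⁻¹ * gen pa pb pc j * pw l ∈ W :=
    W.mul_mem (W.mul_mem (W.inv_mem (pw_mem l)) (gen_memW j)) (pw_mem l)
  revert h1 hm
  generalize (pw l)⁻¹ * gen pa pb pc j * pw l = f
  intro h1 hm
  refine reg _ (W.pow_mem (W.mul_mem (gen_memW i) hm) 4) ?_
  apply Fin.ext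
  have h3 := cls_eq f hm h1
  have h5 := ((cls_spec _ h1).2.2 i hi).2
  have h4 : ∀ s : Fin 8192, (f s : ℕ) = act s (wrd (f 0 : ℕ)) := by
    intro s
    conv_lhs => rw [h3]
    rw [pw_coe _ (fun y hy => wrd_lt _ y hy)]
  revert h4 h5
  generalize wrd (f 0 : ℕ) = w
  intro h5 h4
  have h6 : (((gen pa pb pc i * f) ^ 4) 0 : ℕ) = quad w i := by
    rw [show (gen pa pb pc i * f) ^ 4 = gen pa pb pc i * f * (gen pa pb pc i * f) *
      (gen pa pb pc i * f) * (gen pa pb pc i * f) by simp only [pow_succ, pow_zero, one_mul]]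
    simp only [Equiv.Perm.mul_apply, gen_coe i hi, h4]
    rfl
  rw [h6, h5]
  rfl

end Pool.Agent.TCE
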